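import Pool.Agent.MP_81f5b7_pr.H93.Win

set_option autoImplicit false
set_option linter.unusedSectionVars false

/-! First moment estimates. -/

namespace Pool.Agent.MP_81f5b7_pr.H93

open Finset Filter

theorem fl_comm (h a c : ℝ) : fl h a c = fl h c a := by unfold fl; ring_nf

theorem fl_mono {h a c c' : ℝ} (hh : 0 < h) (ha : 0 ≤ a) (hc : 0 ≤ c) (hcc : c ≤ c') :
    fl h a c ≤ fl h a c' := by
  have e : ∀ x, 0 ≤ x → fl h a x = 1 - h / (h + a) - h * a / ((h + x) * (h + a + x)) := by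
    intro x hx; unfold fl; field_simp; ring
  have hc' := hc.trans hcc
  rw [e c hc, e c' hc']
  gcongr

theorem fl_upper {h a c : ℝ} (hh : 0 < h) (ha : 0 ≤ a) (hc : 0 ≤ c) (hm : 0.61 * (a + c) ≤ h) :
    fl h a c ≤ 0.28 := by
  have h1 : 4 * h / (2 * h + (a + c)) ≤ h / (h + a) + h / (h + c) := by
    rw [div_add_div _ _ (by positivity) (by positivity), div_le_div_iff₀ (by positivity) (by positivity)]
    nlinarith [mul_nonneg hh.le (sq_nonneg (a - c))]
  have h2 : 0.72 + h / (h + a + c) ≤ 4 * h / (2 * h + (a + c)) := by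
    rw [add_div' _ _ _ (by positivity), div_le_div_iff₀ (by positivity) (by positivity)]
    have hm0 : 0 ≤ a + c := by positivity
    nlinarith [mul_nonneg hm0 (sub_nonneg.2 hm), sq_nonneg (h - 0.61 * (a + c)), sq_nonneg (a + c)]
  unfold fl; linarith

theorem fl_lower {h a c : ℝ} (hh : 0 < h) (ha : 0 ≤ a) (hc : 0 ≤ c) (ha' : a ≤ 2.01 * h)
    (hc' : c ≤ 0.334 * h) : fl h a c ≤ 0.218 := by
  calc fl h a c ≤ fl h a (0.334 * h) := fl_mono hh ha hc hc'
    _ = fl h (0.334 * h) a := fl_comm _ _ _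
    _ ≤ fl h (0.334 * h) (2.01 * h) := fl_mono hh (by positivity) ha ha'
    _ ≤ 0.218 := by
      unfold fl
      rw [show h + 0.334 * h + 2.01 * h = h * 3.344 by ring, show h + 0.334 * h = h * 1.334 by ring,
        show h + 2.01 * h = h * 3.01 by ring]
      simp only [div_mul_cancel_left₀ hh.ne']
      norm_num

theorem sum_pow_le (n p q : ℕ) (hq : q ≠ 0) (φ l μ : ℝ) (hφ : 0 ≤ φ) (hl : 1 ≤ l) (hμ : 0 < μ)
    (h : μ ^ q ≤ l ^ p) :
    ∑ B ∈ (univ : Finset (Finset (Fin n))).filter (fun B => p * n ≤ q * B.card), φ ^ B.card ≤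
      ((1 + φ * l) / μ) ^ n := by
  have h1 : ∑ B : Finset (Fin n), (φ * l) ^ B.card = (1 + φ * l) ^ n := by
    have := Finset.sum_pow_mul_eq_add_pow (φ * l) 1 (univ : Finset (Fin n))
    simpa [add_comm] using this
  rw [div_pow, ← h1, le_div_iff₀ (by positivity), sum_mul]
  refine le_trans (sum_le_sum fun B hB => ?_)
    (sum_le_sum_of_subset_of_nonneg (filter_subset _ _) fun B _ _ => by positivity)
  rw [mul_pow]
  gcongr
  have hB' := (mem_filter.1 hB).2
  refine (pow_le_pow_iff_left₀ (by positivity) (by positivity) hq).1 ?_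
  calc (μ ^ n) ^ q = (μ ^ q) ^ n := by rw [← pow_mul, ← pow_mul, mul_comm]
    _ ≤ (l ^ p) ^ n := by gcongr
    _ = l ^ (p * n) := by rw [← pow_mul]
    _ ≤ l ^ (q * B.card) := pow_le_pow_right₀ hl hB'
    _ = _ := by rw [← pow_mul, mul_comm]

/-- size of colour class `i`. -/
def sz {n : ℕ} (c : Fin n → Fin 3) (i : Fin 3) : ℕ := (univ.filter (fun v => c v = i)).card

open Classical in
theorem card_event_le {n N : ℕ} (Q : Fin 3 → (Fin n → Fin 3) → Prop) (p q : ℕ) (φ : ℝ)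
    (hφ : 0 ≤ φ)
    (hQ : ∀ i c, Q i c → p * n ≤ q * sz c i ∧ 3 ≤ sz c i ∧
      fl (((sz c i - 1) / 2 : ℕ) : ℝ) (sz c (i + 1)) (sz c (i + 2)) ≤ φ)
    (E : Finset (Sym2 (Fin n) ≃ Fin N)) (hE : ∀ σ ∈ E, ∃ i c, Q i c ∧ Win σ c) :
    (E.card : ℝ) ≤
      81 * Fintype.card (Sym2 (Fin n) ≃ Fin N) *
        ∑ B ∈ (univ : Finset (Finset (Fin n))).filter (fun B => p * n ≤ q * B.card), φ ^ B.card := by
  set 𝓑 := (univ : Finset (Finset (Fin n))).filter (fun B => p * n ≤ q * B.card) with h𝓑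
  set M : ℝ := (Fintype.card (Sym2 (Fin n) ≃ Fin N) : ℝ) with hM
  have hsub : E ⊆
      univ.biUnion (fun i : Fin 3 => 𝓑.biUnion (fun B => ((fib i B).filter (Q i)).biUnion
        (fun c => univ.filter (fun σ : Sym2 (Fin n) ≃ Fin N => Win σ c)))) := by
    intro σ hσ
    obtain ⟨i, c, hq, hw⟩ := hE σ hσ
    simp only [mem_biUnion, mem_univ, true_and, mem_filter, h𝓑]
    exact ⟨i, univ.filter (fun v => c v = i), (hQ i c hq).1, c, ⟨by simp [fib], hq⟩, hw⟩
  have h1 : ∀ i B, (∑ c ∈ (fib i B).filter (Q i),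
      ((univ.filter (fun σ : Sym2 (Fin n) ≃ Fin N => Win σ c)).card : ℝ)) ≤ 27 * M * φ ^ B.card := by
    intro i B
    calc _ ≤ ∑ c ∈ (fib i B).filter (Q i),
          ((univ.filter (fun σ : Sym2 (Fin n) ≃ Fin N => WinOut σ i c)).card : ℝ) * φ ^ B.card := by
          refine sum_le_sum fun c hc => ?_
          obtain ⟨hc, hq⟩ := mem_filter.1 hc
          have hB : sz c i = B.card := by rw [sz, (mem_filter.1 hc).2]
          obtain ⟨-, h2, h3⟩ := hQ i c hq
          rw [hB] at h2 h3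
          exact card_win_le i c B hc h2 φ hφ h3
      _ ≤ ∑ c ∈ fib i B,
          ((univ.filter (fun σ : Sym2 (Fin n) ≃ Fin N => WinOut σ i c)).card : ℝ) * φ ^ B.card :=
          sum_le_sum_of_subset_of_nonneg (filter_subset _ _) fun _ _ _ => by positivity
      _ ≤ 27 * M * φ ^ B.card := by
          rw [← sum_mul]
          gcongr
          rw [hM]
          exact_mod_cast sum_card_winOut (N := N) i B
  calc _ ≤ ((univ.biUnion (fun i : Fin 3 => 𝓑.biUnion (fun B => ((fib i B).filter (Q i)).biUnion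
        (fun c => univ.filter (fun σ : Sym2 (Fin n) ≃ Fin N => Win σ c))))).card : ℝ) :=
        Nat.cast_le.2 (card_le_card hsub)
    _ ≤ ∑ i : Fin 3, ∑ B ∈ 𝓑, ∑ c ∈ (fib i B).filter (Q i),
        ((univ.filter (fun σ : Sym2 (Fin n) ≃ Fin N => Win σ c)).card : ℝ) := by
        have : (univ.biUnion (fun i : Fin 3 => 𝓑.biUnion (fun B => ((fib i B).filter (Q i)).biUnion
            (fun c => univ.filter (fun σ : Sym2 (Fin n) ≃ Fin N => Win σ c))))).card ≤
            ∑ i : Fin 3, ∑ B ∈ 𝓑, ∑ c ∈ (fib i B).filter (Q i),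
              (univ.filter (fun σ : Sym2 (Fin n) ≃ Fin N => Win σ c)).card :=
          card_biUnion_le.trans (sum_le_sum fun i _ => card_biUnion_le.trans
            (sum_le_sum fun B _ => card_biUnion_le))
        exact_mod_cast this
    _ ≤ ∑ _i : Fin 3, ∑ B ∈ 𝓑, 27 * M * φ ^ B.card :=
        sum_le_sum fun i _ => sum_le_sum fun B _ => h1 i B
    _ = _ := by
        rw [← mul_sum]; simp only [sum_const, card_univ, Fintype.card_fin, nsmul_eq_mul]
        push_cast; ring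

theorem sz_sum {n : ℕ} (c : Fin n → Fin 3) (i : Fin 3) :
    sz c i + sz c (i + 1) + sz c (i + 2) = n := by
  have h : ∑ j : Fin 3, sz c j = n := by
    have := Finset.card_eq_sum_card_fiberwise (s := (univ : Finset (Fin n)))
      (t := (univ : Finset (Fin 3))) (f := c) (fun _ _ => mem_coe.2 (mem_univ _))
    simpa [sz] using this.symm
  rw [Fin.sum_univ_three] at h
  fin_cases i
  · simpa using h
  · show sz c 1 + sz c 2 + sz c 0 = n; omega
  · show sz c 2 + sz c 0 + sz c 1 = n; omega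

open Classical in
theorem card_bad_le {n N : ℕ} (hn : 3000 ≤ n) :
    ((univ.filter (fun σ : Sym2 (Fin n) ≃ Fin N => ∃ c, Win σ c ∧
        ∃ i, 11 * n ≤ 20 * sz c i ∨ 13 * sz c i ≤ n)).card : ℝ) ≤
      Fintype.card (Sym2 (Fin n) ≃ Fin N) * (81 * ((1 + 0.28 * 4.365) / 2.24) ^ n +
        81 * ((1 + 0.218 * 4) / 1.89) ^ n) := by
  have hU := card_event_le (n := n) (N := N) (fun i c => 11 * n ≤ 20 * sz c i) 11 20 0.28
    (by norm_num) (fun i c h => ⟨h, by omega, by
      have hs := sz_sum c i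
      have h1 : 61 * (sz c (i + 1) + sz c (i + 2)) ≤ 100 * ((sz c i - 1) / 2) := by omega
      have h2 : (61 : ℝ) * (sz c (i + 1) + sz c (i + 2)) ≤ 100 * (((sz c i - 1) / 2 : ℕ) : ℝ) := by
        exact_mod_cast h1
      refine fl_upper (by exact_mod_cast (by omega : 0 < (sz c i - 1) / 2)) (by positivity)
        (by positivity) (by linarith)⟩)
    (univ.filter (fun σ : Sym2 (Fin n) ≃ Fin N => ∃ i c, 11 * n ≤ 20 * sz c i ∧ Win σ c))
    (fun σ hσ => (mem_filter.1 hσ).2)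
  have hL := card_event_le (n := n) (N := N) (fun i c => (sz c (i + 1) ≤ sz c i ∧
      13 * sz c (i + 2) ≤ n) ∨ (sz c (i + 2) ≤ sz c i ∧ 13 * sz c (i + 1) ≤ n)) 6 13 0.218
    (by norm_num) (fun i c h => by
      have hs := sz_sum c i
      refine ⟨by omega, by omega, ?_⟩
      have hh : (0 : ℝ) < (((sz c i - 1) / 2 : ℕ) : ℝ) := by
        exact_mod_cast (by omega : 0 < (sz c i - 1) / 2)
      have aux : ∀ a b : ℕ, a ≤ sz c i → 13 * b ≤ n → sz c i + a + b = n →
          fl (((sz c i - 1) / 2 : ℕ) : ℝ) a b ≤ 0.218 := by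
        intro a b h1 h2 h3
        have h4 : (100 : ℝ) * a ≤ 201 * (((sz c i - 1) / 2 : ℕ) : ℝ) := by
          exact_mod_cast (by omega : 100 * a ≤ 201 * ((sz c i - 1) / 2))
        have h5 : (1000 : ℝ) * b ≤ 334 * (((sz c i - 1) / 2 : ℕ) : ℝ) := by
          exact_mod_cast (by omega : 1000 * b ≤ 334 * ((sz c i - 1) / 2))
        exact fl_lower hh (by positivity) (by positivity) (by linarith) (by linarith)
      rcases h with h | h
      · exact aux _ _ h.1 h.2 hs
      · rw [fl_comm]; exact aux _ _ h.1 h.2 (by omega))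
    (univ.filter (fun σ : Sym2 (Fin n) ≃ Fin N => ∃ i c, ((sz c (i + 1) ≤ sz c i ∧
        13 * sz c (i + 2) ≤ n) ∨ (sz c (i + 2) ≤ sz c i ∧ 13 * sz c (i + 1) ≤ n)) ∧ Win σ c))
    (fun σ hσ => (mem_filter.1 hσ).2)
  have sU := sum_pow_le n 11 20 (by norm_num) 0.28 4.365 2.24 (by norm_num) (by norm_num)
    (by norm_num) (by norm_num)
  have sL := sum_pow_le n 6 13 (by norm_num) 0.218 4 1.89 (by norm_num) (by norm_num)
    (by norm_num) (by norm_num)
  have hsub : univ.filter (fun σ : Sym2 (Fin n) ≃ Fin N => ∃ c, Win σ c ∧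
        ∃ i, 11 * n ≤ 20 * sz c i ∨ 13 * sz c i ≤ n) ⊆
      univ.filter (fun σ : Sym2 (Fin n) ≃ Fin N => ∃ i c, 11 * n ≤ 20 * sz c i ∧ Win σ c) ∪
      univ.filter (fun σ : Sym2 (Fin n) ≃ Fin N => ∃ i c, ((sz c (i + 1) ≤ sz c i ∧
        13 * sz c (i + 2) ≤ n) ∨ (sz c (i + 2) ≤ sz c i ∧ 13 * sz c (i + 1) ≤ n)) ∧ Win σ c) := by
    intro σ hσ
    obtain ⟨c, hw, i, h | h⟩ := (mem_filter.1 hσ).2
    · exact mem_union_left _ (mem_filter.2 ⟨mem_univ _, i, c, h, hw⟩)
    · refine mem_union_right _ (mem_filter.2 ⟨mem_univ _, ?_⟩)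
      have e1 : i + 1 + 1 = i + 2 := by fin_cases i <;> decide
      have e2 : i + 1 + 2 = i := by fin_cases i <;> decide
      have e3 : i + 2 + 1 = i := by fin_cases i <;> decide
      have e4 : i + 2 + 2 = i + 1 := by fin_cases i <;> decide
      rcases le_total (sz c (i + 2)) (sz c (i + 1)) with h' | h'
      · exact ⟨i + 1, c, Or.inl (by rw [e1, e2]; exact ⟨h', h⟩), hw⟩
      · exact ⟨i + 2, c, Or.inr (by rw [e3, e4]; exact ⟨h', h⟩), hw⟩
  have h1 := (card_le_card hsub).trans (card_union_le _ _)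
  have h2 := (Nat.cast_le (α := ℝ)).2 h1
  push_cast at h2
  have hM : (0 : ℝ) ≤ Fintype.card (Sym2 (Fin n) ≃ Fin N) := by positivity
  have := mul_le_mul_of_nonneg_left sU hM
  have := mul_le_mul_of_nonneg_left sL hM
  linarith

end Pool.Agent.MP_81f5b7_pr.H93
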