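import Mathlib

set_option autoImplicit false
set_option linter.unusedSectionVars false

/-! Counting linear orders of a finite set: minima and independence on disjoint blocks. -/

namespace Pool.Agent.MP_81f5b7_pr.H93

open Finset

variable {ι : Type} [Fintype ι] [DecidableEq ι] {N : ℕ}

/-- `t` is the first element of `S` in the order `σ`. -/
def IsMin (σ : ι ≃ Fin N) (S : Finset ι) (t : ι) : Prop := t ∈ S ∧ ∀ s ∈ S, σ t ≤ σ s

/-- `R` is invariant under swapping two elements of `S`. -/
def Inv (R : Finset (ι ≃ Fin N)) (S : Finset ι) : Prop :=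
  ∀ a ∈ S, ∀ b ∈ S, ∀ σ ∈ R, (Equiv.swap a b).trans σ ∈ R

theorem Inv.mono {R : Finset (ι ≃ Fin N)} {S T : Finset ι} (h : Inv R S) (hT : T ⊆ S) : Inv R T :=
  fun a ha b hb σ hσ => h a (hT ha) b (hT hb) σ hσ

open Classical in
theorem card_min_le (R : Finset (ι ≃ Fin N)) (S : Finset ι) (hR : Inv R S) {t t' : ι}
    (ht : t ∈ S) (ht' : t' ∈ S) :
    (R.filter (fun σ => IsMin σ S t)).card ≤ (R.filter (fun σ => IsMin σ S t')).card := by
  refine Finset.card_le_card_of_injOn (fun σ => (Equiv.swap t t').trans σ) ?_ ?_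
  · intro σ hσ
    simp only [coe_filter, Set.mem_ofPred_eq] at hσ ⊢
    refine ⟨hR t ht t' ht' σ hσ.1, ht', fun s hs => ?_⟩
    simp only [Equiv.trans_apply, Equiv.swap_apply_right]
    apply hσ.2.2
    by_cases h1 : s = t
    · subst h1; simpa using ht'
    · by_cases h2 : s = t'
      · subst h2; simpa using ht
      · rw [Equiv.swap_apply_of_ne_of_ne h1 h2]; exact hs
  · intro σ _ τ _ h
    have := congrArg (fun ρ => (Equiv.swap t t').trans ρ) h
    simpa [← Equiv.trans_assoc] using this

theorem IsMin.unique {σ : ι ≃ Fin N} {S : Finset ι} {t t' : ι} (h : IsMin σ S t)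
    (h' : IsMin σ S t') : t = t' :=
  σ.injective (le_antisymm (h.2 _ h'.1) (h'.2 _ h.1))

theorem exists_isMin (σ : ι ≃ Fin N) {S : Finset ι} (hS : S.Nonempty) : ∃ t, IsMin σ S t := by
  obtain ⟨t, ht, h⟩ := S.exists_min_image σ hS
  exact ⟨t, ht, h⟩

open Classical in
theorem card_min_sum (R : Finset (ι ≃ Fin N)) (S T : Finset ι) :
    (R.filter (fun σ => ∃ t ∈ T, IsMin σ S t)).card =
      ∑ t ∈ T, (R.filter (fun σ => IsMin σ S t)).card := by
  rw [← Finset.card_biUnion]
  · congr 1; ext σ; simp only [mem_filter, mem_biUnion]; tauto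
  · intro t _ t' _ hne
    refine Finset.disjoint_left.2 fun σ h1 h2 => hne ?_
    exact (mem_filter.1 h1).2.unique (mem_filter.1 h2).2

open Classical in
theorem card_min_in (R : Finset (ι ≃ Fin N)) (S T : Finset ι) (hR : Inv R S) (hT : T ⊆ S)
    (hS : S.Nonempty) :
    ((R.filter (fun σ => ∃ t ∈ T, IsMin σ S t)).card : ℝ) = R.card * (T.card / S.card) := by
  obtain ⟨t₀, ht₀⟩ := hS
  have key : ∀ U ⊆ S, (R.filter (fun σ => ∃ t ∈ U, IsMin σ S t)).card =
      U.card * (R.filter (fun σ => IsMin σ S t₀)).card := by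
    intro U hU
    rw [card_min_sum, ← smul_eq_mul, ← Finset.sum_const]
    exact Finset.sum_congr rfl fun t ht =>
      le_antisymm (card_min_le R S hR (hU ht) ht₀) (card_min_le R S hR ht₀ (hU ht))
  have hall : R.filter (fun σ => ∃ t ∈ S, IsMin σ S t) = R := by
    apply Finset.filter_true_of_mem
    intro σ _
    obtain ⟨t, ht⟩ := exists_isMin σ ⟨t₀, ht₀⟩
    exact ⟨t, ht.1, ht⟩
  have h1 := key S (Subset.refl _)
  rw [hall] at h1
  have hS0 : (S.card : ℝ) ≠ 0 := by
    exact_mod_cast (Finset.card_pos.2 ⟨t₀, ht₀⟩).ne'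
  rw [key T hT, h1]
  push_cast
  field_simp

/-- every element of `D` comes after some element of `A` and after some element of `C`. -/
def Last (σ : ι ≃ Fin N) (D A C : Finset ι) : Prop :=
  ∀ d ∈ D, (∃ a ∈ A, σ a < σ d) ∧ (∃ c ∈ C, σ c < σ d)

/-- probability that the block of size `h` is seen last. -/
noncomputable def fl (h a c : ℝ) : ℝ := 1 - h / (h + a) - h / (h + c) + h / (h + a + c)

open Classical in
theorem card_last_le (R : Finset (ι ≃ Fin N)) (D A C : Finset ι) (hD : D.Nonempty)
    (hDA : Disjoint D A) (hDC : Disjoint D C) (hAC : Disjoint A C) (hR : Inv R (D ∪ A ∪ C)) :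
    ((R.filter (fun σ => Last σ D A C)).card : ℝ) ≤ R.card * fl D.card A.card C.card := by
  set FA := R.filter (fun σ => ∃ t ∈ D, IsMin σ (D ∪ A) t) with hFA
  set FC := R.filter (fun σ => ∃ t ∈ D, IsMin σ (D ∪ C) t) with hFC
  set F := R.filter (fun σ => ∃ t ∈ D, IsMin σ (D ∪ A ∪ C) t) with hF
  have eA : (FA.card : ℝ) = R.card * (D.card / (D.card + A.card)) := by
    rw [hFA, card_min_in R _ D (hR.mono subset_union_left) subset_union_left
      (hD.mono subset_union_left), card_union_of_disjoint hDA]; push_cast; rfl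
  have eC : (FC.card : ℝ) = R.card * (D.card / (D.card + C.card)) := by
    rw [hFC, card_min_in R _ D (hR.mono (union_subset_union_left subset_union_left))
      subset_union_left (hD.mono subset_union_left), card_union_of_disjoint hDC]; push_cast; rfl
  have eF : (F.card : ℝ) = R.card * (D.card / (D.card + A.card + C.card)) := by
    rw [hF, card_min_in R _ D hR (subset_union_left.trans subset_union_left)
      (hD.mono (subset_union_left.trans subset_union_left)),
      card_union_of_disjoint (disjoint_union_left.2 ⟨hDC, hAC⟩), card_union_of_disjoint hDA]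
    push_cast; rfl
  have h1 : FA ∩ FC ⊆ F := by
    intro σ hσ
    simp only [hFA, hFC, hF, mem_inter, mem_filter] at hσ ⊢
    obtain ⟨⟨hσR, t, ht, hm⟩, -, t', ht', hm'⟩ := hσ
    have : t = t' := σ.injective (le_antisymm (hm.2 _ (mem_union_left _ ht'))
      (hm'.2 _ (mem_union_left _ ht)))
    subst this
    refine ⟨hσR, t, ht, mem_union_left _ (mem_union_left _ ht), fun s hs => ?_⟩
    rcases mem_union.1 hs with hs | hs
    · exact hm.2 s hs
    · exact hm'.2 s (mem_union_right _ hs)
  have h2 : Disjoint (R.filter (fun σ => Last σ D A C)) (FA ∪ FC) := by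
    refine Finset.disjoint_left.2 fun σ hσ h => ?_
    have hL := (mem_filter.1 hσ).2
    rcases mem_union.1 h with h | h
    · obtain ⟨t, ht, hm⟩ := (mem_filter.1 h).2
      obtain ⟨a, ha, hlt⟩ := (hL t ht).1
      exact absurd (hm.2 a (mem_union_right _ ha)) (not_le.2 hlt)
    · obtain ⟨t, ht, hm⟩ := (mem_filter.1 h).2
      obtain ⟨a, ha, hlt⟩ := (hL t ht).2
      exact absurd (hm.2 a (mem_union_right _ ha)) (not_le.2 hlt)
  have h3 : (R.filter (fun σ => Last σ D A C)) ∪ (FA ∪ FC) ⊆ R :=
    union_subset (filter_subset _ _) (union_subset (filter_subset _ _) (filter_subset _ _))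
  have h4 := card_le_card h3
  rw [card_union_of_disjoint h2] at h4
  have h5 := card_union_add_card_inter FA FC
  have h6 := card_le_card h1
  have h7 : ((R.filter (fun σ => Last σ D A C)).card : ℝ) + FA.card + FC.card ≤ R.card + F.card := by
    exact_mod_cast (by omega :
      (R.filter (fun σ => Last σ D A C)).card + FA.card + FC.card ≤ R.card + F.card)
  rw [eA, eC, eF] at h7
  unfold fl
  linarith

theorem Last.swap {σ : ι ≃ Fin N} {D A C : Finset ι} (h : Last σ D A C) {a b : ι}
    (ha : a ∉ D ∪ A ∪ C) (hb : b ∉ D ∪ A ∪ C) : Last ((Equiv.swap a b).trans σ) D A C := by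
  have key : ∀ x ∈ D ∪ A ∪ C, ((Equiv.swap a b).trans σ) x = σ x := by
    intro x hx
    rw [Equiv.trans_apply, Equiv.swap_apply_of_ne_of_ne]
    · rintro rfl; exact ha hx
    · rintro rfl; exact hb hx
  intro d hd
  have hd' := key d (mem_union_left _ (mem_union_left _ hd))
  obtain ⟨⟨x, hx, h1⟩, y, hy, h2⟩ := h d hd
  refine ⟨⟨x, hx, ?_⟩, y, hy, ?_⟩
  · rw [hd', key x (mem_union_left _ (mem_union_right _ hx))]; exact h1
  · rw [hd', key y (mem_union_right _ hy)]; exact h2

open Classical in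
theorem card_all_last_le {V : Type} [DecidableEq V] (B : Finset V) (D A C : V → Finset ι) (φ : ℝ)
    (hφ : 0 ≤ φ) (R : Finset (ι ≃ Fin N))
    (hD : ∀ x ∈ B, (D x).Nonempty) (hDA : ∀ x ∈ B, Disjoint (D x) (A x))
    (hDC : ∀ x ∈ B, Disjoint (D x) (C x)) (hAC : ∀ x ∈ B, Disjoint (A x) (C x))
    (hdisj : ∀ x ∈ B, ∀ y ∈ B, x ≠ y → Disjoint (D x ∪ A x ∪ C x) (D y ∪ A y ∪ C y))
    (hR : ∀ x ∈ B, Inv R (D x ∪ A x ∪ C x))
    (hf : ∀ x ∈ B, fl (D x).card (A x).card (C x).card ≤ φ) :
    ((R.filter (fun σ => ∀ x ∈ B, Last σ (D x) (A x) (C x))).card : ℝ) ≤ R.card * φ ^ B.card := by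
  induction B using Finset.induction_on with
  | empty => simp
  | insert x B hx ih =>
    have ih' := ih (fun y hy => hD y (mem_insert_of_mem hy)) (fun y hy => hDA y (mem_insert_of_mem hy))
      (fun y hy => hDC y (mem_insert_of_mem hy)) (fun y hy => hAC y (mem_insert_of_mem hy))
      (fun y hy z hz => hdisj y (mem_insert_of_mem hy) z (mem_insert_of_mem hz))
      (fun y hy => hR y (mem_insert_of_mem hy)) (fun y hy => hf y (mem_insert_of_mem hy))
    set R' := R.filter (fun σ => ∀ x ∈ B, Last σ (D x) (A x) (C x)) with hR'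
    have hx' := mem_insert_self x B
    have hinv : Inv R' (D x ∪ A x ∪ C x) := by
      intro a ha b hb σ hσ
      rw [hR', mem_filter] at hσ ⊢
      refine ⟨hR x hx' a ha b hb σ hσ.1, fun y hy => (hσ.2 y hy).swap ?_ ?_⟩
      · exact Finset.disjoint_left.1 (hdisj x hx' y (mem_insert_of_mem hy)
          (by rintro rfl; exact hx hy)) ha
      · exact Finset.disjoint_left.1 (hdisj x hx' y (mem_insert_of_mem hy)
          (by rintro rfl; exact hx hy)) hb
    have h1 := card_last_le R' (D x) (A x) (C x) (hD x hx') (hDA x hx') (hDC x hx') (hAC x hx') hinv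
    have h2 : R.filter (fun σ => ∀ y ∈ insert x B, Last σ (D y) (A y) (C y)) =
        R'.filter (fun σ => Last σ (D x) (A x) (C x)) := by
      ext σ; simp only [hR', mem_filter, forall_mem_insert]; tauto
    rw [h2, card_insert_of_notMem hx, pow_succ]
    calc _ ≤ (R'.card : ℝ) * fl (D x).card (A x).card (C x).card := h1
      _ ≤ R'.card * φ := by gcongr; exact hf x hx'
      _ ≤ (R.card * φ ^ B.card) * φ := by gcongr
      _ = _ := by ring

end Pool.Agent.MP_81f5b7_pr.H93
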