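import Pool.Agent.MP_81f5b7_pr.H93.Order

set_option autoImplicit false
set_option linter.unusedSectionVars false

/-! The final colouring of the process beats every other colouring at the first difference. -/

namespace Pool.Agent.MP_81f5b7_pr.H93

open Finset

variable {n N : ℕ}

/-- `c` beats every other colouring at the first pair where they differ. -/
def Win (σ : Sym2 (Fin n) ≃ Fin N) (c : Fin n → Fin 3) : Prop :=
  ∀ c' : Fin n → Fin 3, ∀ x y : Fin n, c x = c y → c' x ≠ c' y →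
    ∃ u v : Fin n, σ s(u, v) < σ s(x, y) ∧ c u ≠ c v ∧ c' u = c' v

theorem win_of_rule (σ : Sym2 (Fin n) ≃ Fin N) (H : SimpleGraph (Fin n))
    (hH : ∀ e : Sym2 (Fin n), ¬ e.IsDiag →
      (e ∈ H.edgeSet ↔ (SimpleGraph.fromEdgeSet
        ({f : Sym2 (Fin n) | f ∈ H.edgeSet ∧ σ f < σ e} ∪ {e})).Colorable 3))
    (c : H.Coloring (Fin 3)) : Win σ c := by
  intro c' x y hxy hxy'
  by_contra hne
  push Not at hne
  have hd : ¬ (s(x, y) : Sym2 (Fin n)).IsDiag := by
    rw [Sym2.mk_isDiag_iff]; rintro rfl; exact hxy' rfl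
  have hcol : (SimpleGraph.fromEdgeSet
      ({f : Sym2 (Fin n) | f ∈ H.edgeSet ∧ σ f < σ s(x, y)} ∪ {s(x, y)})).Colorable 3 := by
    refine ⟨SimpleGraph.Coloring.mk c' ?_⟩
    intro u v huv
    rw [SimpleGraph.fromEdgeSet_adj] at huv
    rcases huv.1 with h | h
    · exact hne u v h.2 (c.valid (by simpa using h.1))
    · rw [Set.mem_singleton_iff, Sym2.eq_iff] at h
      rcases h with ⟨rfl, rfl⟩ | ⟨rfl, rfl⟩
      · exact hxy'
      · exact hxy'.symm
  have := (hH _ hd).2 hcol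
  exact c.valid (by simpa using this) hxy

/-- the part of `Win` that only sees pairs outside the class `i`. -/
def WinOut (σ : Sym2 (Fin n) ≃ Fin N) (i : Fin 3) (c : Fin n → Fin 3) : Prop :=
  ∀ c' : Fin n → Fin 3, (∀ v, c' v = i ↔ c v = i) → ∀ x y : Fin n, c x ≠ i → c x = c y → c' x ≠ c' y →
    ∃ u v : Fin n, c u ≠ i ∧ c v ≠ i ∧ σ s(u, v) < σ s(x, y) ∧ c u ≠ c v ∧ c' u = c' v

theorem Win.out {σ : Sym2 (Fin n) ≃ Fin N} {c : Fin n → Fin 3} (h : Win σ c) (i : Fin 3) :
    WinOut σ i c := by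
  intro c' hc' x y _ hxy hxy'
  obtain ⟨u, v, h1, h2, h3⟩ := h c' x y hxy hxy'
  refine ⟨u, v, fun hu => h2 ?_, fun hv => h2 ?_, h1, h2, h3⟩
  · rw [hu, (hc' v).1 (h3 ▸ (hc' u).2 hu)]
  · rw [hv, (hc' u).1 (h3.symm ▸ (hc' v).2 hv)]

theorem WinOut.same {σ : Sym2 (Fin n) ≃ Fin N} {i : Fin 3} {c c' : Fin n → Fin 3}
    (h : WinOut σ i c) (h' : WinOut σ i c') (hcc : ∀ v, c' v = i ↔ c v = i) (x y : Fin n) :
    c x = c y ↔ c' x = c' y := by
  classical
  by_contra hne
  set Δ : Finset (Fin n × Fin n) := univ.filter (fun p => ¬ (c p.1 = c p.2 ↔ c' p.1 = c' p.2))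
    with hΔ
  obtain ⟨p, hp, hmin⟩ := Δ.exists_min_image (fun p => σ s(p.1, p.2)) ⟨(x, y), by simpa [hΔ] using hne⟩
  have hp' : ¬ (c p.1 = c p.2 ↔ c' p.1 = c' p.2) := (mem_filter.1 hp).2
  by_cases h1 : c p.1 = c p.2
  · have h2 : c' p.1 ≠ c' p.2 := fun h2 => hp' ⟨fun _ => h2, fun _ => h1⟩
    have h3 : c p.1 ≠ i := fun h3 => h2 (((hcc _).2 h3).trans ((hcc _).2 (h1 ▸ h3)).symm)
    obtain ⟨u, v, -, -, hlt, h4, h5⟩ := h c' hcc p.1 p.2 h3 h1 h2
    have : (u, v) ∈ Δ := by simp [hΔ, h4, h5]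
    exact absurd (hmin _ this) (not_le.2 hlt)
  · have h2 : c' p.1 = c' p.2 := by
      by_contra h2; exact hp' ⟨fun h => absurd h h1, fun h => absurd h h2⟩
    have h3 : c' p.1 ≠ i := fun h3 => h1 (((hcc _).1 h3).trans ((hcc _).1 (h2 ▸ h3)).symm)
    obtain ⟨u, v, -, -, hlt, h4, h5⟩ := h' c (fun v => (hcc v).symm) p.1 p.2 h3 h2 h1
    have : (u, v) ∈ Δ := by simp [hΔ, h4, h5]
    exact absurd (hmin _ this) (not_le.2 hlt)

/-- colourings whose class `i` is `B`. -/
def fib (i : Fin 3) (B : Finset (Fin n)) : Finset (Fin n → Fin 3) :=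
  univ.filter (fun c => univ.filter (fun v => c v = i) = B)

theorem mem_fib {i : Fin 3} {B : Finset (Fin n)} {c : Fin n → Fin 3} :
    c ∈ fib i B ↔ ∀ v, c v = i ↔ v ∈ B := by
  simp [fib, Finset.ext_iff]

open Classical in
theorem card_winOut_fib (σ : Sym2 (Fin n) ≃ Fin N) (i : Fin 3) (B : Finset (Fin n)) :
    ((fib i B).filter (fun c => WinOut σ i c)).card ≤ 27 := by
  rcases ((fib i B).filter (fun c => WinOut σ i c)).eq_empty_or_nonempty with h | ⟨c, hc⟩
  · simp [h]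
  have hsub : (fib i B).filter (fun c => WinOut σ i c) ⊆
      (univ : Finset (Fin 3 → Fin 3)).image (fun g => g ∘ c) := by
    intro c' hc'
    rw [mem_filter, mem_fib] at hc hc'
    have hs := hc.2.same hc'.2 (fun v => (hc'.1 v).trans (hc.1 v).symm)
    refine mem_image.2 ⟨fun a => if h : ∃ x, c x = a then c' h.choose else 0, mem_univ _, ?_⟩
    funext x
    have hx : ∃ y, c y = c x := ⟨x, rfl⟩
    simp only [Function.comp, dif_pos hx]
    exact (hs _ _).1 hx.choose_spec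
  calc _ ≤ _ := card_le_card hsub
    _ ≤ (univ : Finset (Fin 3 → Fin 3)).card := card_image_le
    _ = 27 := by simp

open Classical in
theorem sum_card_winOut (i : Fin 3) (B : Finset (Fin n)) :
    ∑ c ∈ fib i B, (univ.filter (fun σ : Sym2 (Fin n) ≃ Fin N => WinOut σ i c)).card ≤
      27 * Fintype.card (Sym2 (Fin n) ≃ Fin N) := by
  have : ∑ c ∈ fib i B, (univ.filter (fun σ : Sym2 (Fin n) ≃ Fin N => WinOut σ i c)).card =
      ∑ σ : Sym2 (Fin n) ≃ Fin N, ((fib i B).filter (fun c => WinOut σ i c)).card := by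
    simp only [card_filter]; exact Finset.sum_comm
  rw [this]
  calc _ ≤ ∑ _σ : Sym2 (Fin n) ≃ Fin N, 27 := sum_le_sum fun σ _ => card_winOut_fib σ i B
    _ = _ := by simp [mul_comm]

theorem WinOut.swap {σ : Sym2 (Fin n) ≃ Fin N} {i : Fin 3} {c : Fin n → Fin 3} (h : WinOut σ i c)
    {x : Fin n} (hx : c x = i) {a b : Sym2 (Fin n)} (ha : x ∈ a) (hb : x ∈ b) :
    WinOut ((Equiv.swap a b).trans σ) i c := by
  have key : ∀ u v : Fin n, c u ≠ i → c v ≠ i → ((Equiv.swap a b).trans σ) s(u, v) = σ s(u, v) := by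
    intro u v hu hv
    have : x ∉ (s(u, v) : Sym2 (Fin n)) := by
      rw [Sym2.mem_iff]; rintro (rfl | rfl); exacts [hu hx, hv hx]
    rw [Equiv.trans_apply, Equiv.swap_apply_of_ne_of_ne]
    · rintro rfl; exact this ha
    · rintro rfl; exact this hb
  intro c' hc' y z hy hyz hyz'
  obtain ⟨u, v, hu, hv, hlt, h4⟩ := h c' hc' y z hy hyz hyz'
  refine ⟨u, v, hu, hv, ?_, h4⟩
  rw [key u v hu hv, key y z hy (hyz ▸ hy)]; exact hlt

theorem Win.seen {σ : Sym2 (Fin n) ≃ Fin N} {c : Fin n → Fin 3} (h : Win σ c) {x y : Fin n}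
    (hxy : x ≠ y) (hc : c x = c y) {j : Fin 3} (hj : j ≠ c x) :
    ∃ a, c a = j ∧ σ s(x, a) < σ s(x, y) := by
  classical
  obtain ⟨u, v, hlt, h1, h2⟩ := h (Function.update c x j) x y hc
    (by rw [Function.update_self, Function.update_of_ne hxy.symm, ← hc]; exact hj)
  by_cases hu : u = x
  · subst hu
    have hv : v ≠ u := fun hv => h1 (hv ▸ rfl)
    rw [Function.update_self, Function.update_of_ne hv] at h2
    exact ⟨v, h2.symm, hlt⟩
  · by_cases hv : v = x
    · subst hv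
      rw [Function.update_self, Function.update_of_ne hu] at h2
      exact ⟨u, h2, by rwa [Sym2.eq_swap]⟩
    · rw [Function.update_of_ne hu, Function.update_of_ne hv] at h2
      exact absurd h2 h1

/-- a near-regular tournament on `B`. -/
theorem exists_tournament (B : Finset (Fin n)) :
    ∃ T : Fin n → Finset (Fin n), ∀ x ∈ B, T x ⊆ B ∧ x ∉ T x ∧ (T x).card = (B.card - 1) / 2 ∧
      ∀ y ∈ T x, x ∉ T y := by
  classical
  rcases Nat.eq_zero_or_pos B.card with h0 | hpos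
  · refine ⟨fun _ => ∅, fun x hx => ?_⟩
    rw [card_eq_zero] at h0; simp [h0] at hx
  obtain ⟨k, hk⟩ : ∃ k, B.card = k + 1 := ⟨B.card - 1, by omega⟩
  let e : B ≃ Fin (k + 1) := B.equivFinOfCardEq hk
  let φ : Fin n → ℕ := fun x => if h : x ∈ B then (e ⟨x, h⟩ : ℕ) else 0
  have hφ : ∀ x, φ x < k + 1 := by
    intro x; simp only [φ]; split_ifs with h
    · exact (e _).2
    · omega
  have hinj : ∀ x ∈ B, ∀ y ∈ B, φ x = φ y → x = y := by
    intro x hx y hy h
    simp only [φ, dif_pos hx, dif_pos hy] at h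
    simpa using e.injective (Fin.ext h)
  have hsurj : ∀ m < k + 1, ∃ x ∈ B, φ x = m := by
    intro m hm
    refine ⟨(e.symm ⟨m, hm⟩).1, (e.symm ⟨m, hm⟩).2, ?_⟩
    simp [φ]
  let δ : Fin n → Fin n → ℕ := fun x y => if φ x ≤ φ y then φ y - φ x else φ y + (k + 1) - φ x
  refine ⟨fun x => B.filter (fun y => 1 ≤ δ x y ∧ δ x y ≤ k / 2), fun x hx =>
    ⟨filter_subset _ _, by simp [δ], ?_, ?_⟩⟩
  · rw [hk, Nat.add_sub_cancel]
    have : (Finset.Icc 1 (k / 2)).card = k / 2 := by simp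
    rw [← this]
    refine Finset.card_nbij (fun y => δ x y) ?_ ?_ ?_
    · intro y hy
      simp only [coe_filter, Set.mem_ofPred_eq] at hy
      simpa using hy.2
    · intro y hy z hz h
      simp only [coe_filter, Set.mem_ofPred_eq] at hy hz
      apply hinj y hy.1 z hz.1
      have := hφ x; have := hφ y; have := hφ z
      simp only [δ] at h
      split_ifs at h <;> omega
    · intro m hm
      simp only [coe_Icc, Set.mem_Icc] at hm
      have := hφ x
      by_cases h : φ x + m < k + 1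
      · obtain ⟨y, hy, hy'⟩ := hsurj _ h
        have hδ : δ x y = m := by simp only [δ]; split_ifs <;> omega
        exact ⟨y, by simp only [coe_filter, Set.mem_ofPred_eq]; exact ⟨hy, by omega⟩, hδ⟩
      · obtain ⟨y, hy, hy'⟩ := hsurj (φ x + m - (k + 1)) (by omega)
        have hδ : δ x y = m := by simp only [δ]; split_ifs <;> omega
        exact ⟨y, by simp only [coe_filter, Set.mem_ofPred_eq]; exact ⟨hy, by omega⟩, hδ⟩
  · intro y hy hxy
    simp only [mem_filter, δ] at hy hxy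
    have := hφ x; have := hφ y
    obtain ⟨-, h1, h2⟩ := hy
    obtain ⟨-, h3, h4⟩ := hxy
    split_ifs at h1 h2 h3 h4 <;> omega

open Classical in
theorem card_win_le (i : Fin 3) (c : Fin n → Fin 3) (B : Finset (Fin n)) (hB : c ∈ fib i B)
    (h3 : 3 ≤ B.card) (φ : ℝ) (hφ : 0 ≤ φ)
    (hf : fl (((B.card - 1) / 2 : ℕ) : ℝ) (univ.filter (fun v => c v = i + 1)).card
      (univ.filter (fun v => c v = i + 2)).card ≤ φ) :
    ((univ.filter (fun σ : Sym2 (Fin n) ≃ Fin N => Win σ c)).card : ℝ) ≤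
      (univ.filter (fun σ : Sym2 (Fin n) ≃ Fin N => WinOut σ i c)).card * φ ^ B.card := by
  obtain ⟨T, hT⟩ := exists_tournament B
  rw [mem_fib] at hB
  have hi1 : i + 1 ≠ i := by fin_cases i <;> decide
  have hi2 : i + 2 ≠ i := by fin_cases i <;> decide
  have hi12 : i + 1 ≠ i + 2 := by fin_cases i <;> decide
  let st : Fin n → Finset (Fin n) → Finset (Sym2 (Fin n)) := fun x S => S.image (fun y => s(x, y))
  have hst : ∀ x S, (st x S).card = S.card := fun x S =>
    card_image_of_injective _ (fun y z h => Sym2.congr_right.1 h)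
  have hstd : ∀ x S S', Disjoint S S' → Disjoint (st x S) (st x S') := fun x S S' h =>
    (disjoint_image (fun y z h => Sym2.congr_right.1 h)).2 h
  set A := univ.filter (fun v => c v = i + 1) with hA
  set C := univ.filter (fun v => c v = i + 2) with hC
  have hun : ∀ x, st x (T x) ∪ st x A ∪ st x C = st x (T x ∪ A ∪ C) := by
    intro x; simp only [st, image_union]
  have key := card_all_last_le B (fun x => st x (T x)) (fun x => st x A) (fun x => st x C) φ hφ
    (univ.filter (fun σ : Sym2 (Fin n) ≃ Fin N => WinOut σ i c))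
    (fun x hx => by
      rw [← card_pos, hst, (hT x hx).2.2.1]; omega)
    (fun x hx => hstd x _ _ (disjoint_left.2 fun y hy hy' =>
      hi1 ((mem_filter.1 hy').2.symm.trans ((hB y).2 ((hT x hx).1 hy)))))
    (fun x hx => hstd x _ _ (disjoint_left.2 fun y hy hy' =>
      hi2 ((mem_filter.1 hy').2.symm.trans ((hB y).2 ((hT x hx).1 hy)))))
    (fun x _ => hstd x _ _ (disjoint_left.2 fun y hy hy' =>
      hi12 ((mem_filter.1 hy).2.symm.trans (mem_filter.1 hy').2)))
    (fun x hx y hy hxy => by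
      rw [hun, hun]
      refine disjoint_left.2 fun e he he' => ?_
      obtain ⟨u, hu, rfl⟩ := mem_image.1 he
      obtain ⟨v, hv, huv⟩ := mem_image.1 he'
      rw [Sym2.eq_iff] at huv
      rcases huv with ⟨h, -⟩ | ⟨rfl, rfl⟩
      · exact hxy h.symm
      · have aux : ∀ z ∈ B, ∀ w, z ∈ T w ∪ A ∪ C → z ∈ T w := by
          intro z hz w hw
          rcases mem_union.1 hw with hw | hw
          · rcases mem_union.1 hw with hw | hw
            · exact hw
            · exact absurd ((mem_filter.1 hw).2.symm.trans ((hB z).2 hz)) hi1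
          · exact absurd ((mem_filter.1 hw).2.symm.trans ((hB z).2 hz)) hi2
        exact (hT _ hx).2.2.2 _ (aux _ hy _ hu) (aux _ hx _ hv))
    (fun x hx a ha b hb σ hσ => by
      rw [hun] at ha hb
      obtain ⟨u, -, rfl⟩ := mem_image.1 ha
      obtain ⟨v, -, rfl⟩ := mem_image.1 hb
      rw [mem_filter] at hσ ⊢
      exact ⟨mem_univ _, hσ.2.swap ((hB x).2 hx) (Sym2.mem_mk_left _ _) (Sym2.mem_mk_left _ _)⟩)
    (fun x hx => by rw [hst, hst, hst, (hT x hx).2.2.1]; exact hf)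
  refine le_trans ?_ key
  refine Nat.cast_le.2 (card_le_card ?_)
  intro σ hw
  simp only [mem_filter, mem_univ, true_and] at hw ⊢
  refine ⟨hw.out i, fun x hx d hd => ?_⟩
  obtain ⟨y, hy, rfl⟩ := mem_image.1 hd
  have hxy : x ≠ y := by rintro rfl; exact (hT x hx).2.1 hy
  have hcx := (hB x).2 hx
  have hcy := (hB y).2 ((hT x hx).1 hy)
  obtain ⟨a, ha, hlt⟩ := hw.seen hxy (hcx.trans hcy.symm) (j := i + 1) (hcx ▸ hi1)
  obtain ⟨b, hb, hlt'⟩ := hw.seen hxy (hcx.trans hcy.symm) (j := i + 2) (hcx ▸ hi2)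
  exact ⟨⟨_, mem_image_of_mem _ (by simp [hA, ha]), hlt⟩, _, mem_image_of_mem _ (by simp [hC, hb]), hlt'⟩

end Pool.Agent.MP_81f5b7_pr.H93
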